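import Mathlib
import Pool.Agent.H67.BD.A1

set_option autoImplicit false
set_option linter.unusedSectionVars false
set_option linter.unusedVariables false

/-!
# Module GAIN
-/

namespace Pool.Agent.H42.BH

open Module Pool.Agent.H67.TV Pool.Agent.H302R2 Pool.Agent.Y788.SC Pool.Agent.H67.BD Finset

variable {T : Type} [Group T] {K : ℕ}

/-- the restriction of `t` to `A` -/
def res (A : Finset (Fin K)) (t : Fin K → T) : Fin K → T := fun i => if i ∈ A then t i else 1

theorem res_mul (A : Finset (Fin K)) (s t : Fin K → T) : res A (s * t) = res A s * res A t := by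
  funext i
  by_cases h : i ∈ A <;> simp [res, h]

theorem res_res {A B : Finset (Fin K)} (h : A ⊆ B) (t : Fin K → T) : res B (res A t) = res A t := by
  funext i
  by_cases h1 : i ∈ A
  · simp [res, h1, h h1]
  · simp [res, h1]

/-- the subgroup of the elements supported in `A` -/
def VA (T : Type) [Group T] {K : ℕ} (A : Finset (Fin K)) : Subgroup (Fin K → T) where
  carrier := {t | ∀ i, i ∉ A → t i = 1}
  one_mem' := fun i _ => rfl
  mul_mem' := by
    intro s t hs ht i hi
    rw [Pi.mul_apply, hs i hi, ht i hi, mul_one]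
  inv_mem' := by
    intro s hs i hi
    rw [Pi.inv_apply, hs i hi, inv_one]

theorem res_mem (A : Finset (Fin K)) (t : Fin K → T) : res A t ∈ VA T A := by
  intro i hi
  simp [res, hi]

theorem res_of_mem {A : Finset (Fin K)} {t : Fin K → T} (h : t ∈ VA T A) : res A t = t := by
  funext i
  by_cases h1 : i ∈ A
  · simp [res, h1]
  · simp [res, h1, h i h1]

variable [Fintype T] [DecidableEq T]

/-- the average over the subgroup as an average over the whole group -/
theorem cm_eq_sum (θ : (Fin K → T) → ℂ) (A : Finset (Fin K)) (g : Fin K → T) :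
    (Fintype.card (Fin K → T) : ℝ) * cm θ (VA T A) g = ∑ t : Fin K → T, dl θ (res A t * g) := by
  classical
  have : Fintype (VA T A) := Fintype.ofFinite _
  have hV : (Nat.card (VA T A) : ℝ) ≠ 0 := by exact_mod_cast Nat.card_pos.ne'
  have h1 : (Nat.card (VA T A) : ℝ) * ∑ t : Fin K → T, dl θ (res A t * g) =
      ∑ v : VA T A, ∑ t : Fin K → T, dl θ (res A t * (v : Fin K → T) * g) := by
    have : ∀ v : VA T A, ∑ t : Fin K → T, dl θ (res A t * (v : Fin K → T) * g) =
        ∑ t : Fin K → T, dl θ (res A t * g) := by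
      intro v
      rw [← Equiv.sum_comp (Equiv.mulRight (v : Fin K → T)) (fun t => dl θ (res A t * g))]
      refine Finset.sum_congr rfl fun t _ => ?_
      rw [Equiv.coe_mulRight, res_mul, res_of_mem v.2]
    rw [Finset.sum_congr rfl fun v _ => this v, Finset.sum_const, Finset.card_univ, nsmul_eq_mul,
      Nat.card_eq_fintype_card]
  have h2 : ∑ v : VA T A, ∑ t : Fin K → T, dl θ (res A t * (v : Fin K → T) * g) =
      (Fintype.card (Fin K → T) : ℝ) * ∑ v : VA T A, dl θ ((v : Fin K → T) * g) := by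
    rw [Finset.sum_comm]
    have : ∀ t : Fin K → T, ∑ v : VA T A, dl θ (res A t * (v : Fin K → T) * g) =
        ∑ v : VA T A, dl θ ((v : Fin K → T) * g) := by
      intro t
      exact Equiv.sum_comp (Equiv.mulLeft (⟨res A t, res_mem A t⟩ : VA T A))
        (fun v => dl θ ((v : Fin K → T) * g))
    rw [Finset.sum_congr rfl fun t _ => this t, Finset.sum_const, Finset.card_univ, nsmul_eq_mul]
  have h3 : cm θ (VA T A) g = (Nat.card (VA T A) : ℝ)⁻¹ * ∑ v : VA T A, dl θ ((v : Fin K → T) * g) := by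
    rw [cm, finsum_eq_sum_of_fintype]
  rw [h3]
  have h4 := h1.trans h2
  field_simp
  linarith

/-- the mean over `A` -/
noncomputable def S (θ : (Fin K → T) → ℂ) (A : Finset (Fin K)) : ℝ := ∑ t : Fin K → T, dl θ (res A t)

theorem S_mono {θ : (Fin K → T) → ℂ} (hθ : IsHeilbronn θ) {A B : Finset (Fin K)} (h : A ⊆ B) :
    S θ A ≤ S θ B := by
  classical
  set N : ℝ := (Fintype.card (Fin K → T) : ℝ) with hN
  have hN0 : 0 < N := by rw [hN]; exact_mod_cast Fintype.card_pos
  have key : ∀ s : Fin K → T, S θ A ≤ ∑ t : Fin K → T, dl θ (res A t * res (B \ A) s) := by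
    intro s
    have hn : res (B \ A) s ∈ Subgroup.normalizer (VA T A : Set (Fin K → T)) := by
      rw [Subgroup.mem_normalizer_iff]
      intro v
      constructor
      · intro hv i hi
        simp only [Pi.mul_apply, Pi.inv_apply, hv i hi, mul_one, mul_inv_cancel]
      · intro hv i hi
        have := hv i hi
        simp only [Pi.mul_apply, Pi.inv_apply] at this
        have h2 : res (B \ A) s i * v i = res (B \ A) s i := by
          rw [mul_inv_eq_one] at this; exact this
        exact mul_eq_left.1 h2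
    have h1 := cm_coset_le hθ (VA T A) _ hn
    have h2 := mul_le_mul_of_nonneg_left h1 hN0.le
    rw [cm_eq_sum, cm_eq_sum] at h2
    simpa [S] using h2
  have h2 : N * S θ A ≤ ∑ s : Fin K → T, ∑ t : Fin K → T, dl θ (res A t * res (B \ A) s) := by
    have := Finset.sum_le_sum fun s (_ : s ∈ (Finset.univ : Finset (Fin K → T))) => key s
    rwa [Finset.sum_const, Finset.card_univ, nsmul_eq_mul] at this
  have h3 : ∑ s : Fin K → T, ∑ t : Fin K → T, dl θ (res A t * res (B \ A) s) = N * S θ B := by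
    have e1 : ∀ s : Fin K → T, ∑ t : Fin K → T, dl θ (res A t * res (B \ A) s) =
        ∑ t : Fin K → T, dl θ (res B (res A t * s)) := by
      intro s
      rw [← Equiv.sum_comp (Equiv.mulRight s) (fun t => dl θ (res A t * res (B \ A) s))]
      refine Finset.sum_congr rfl fun t _ => ?_
      congr 1
      funext i
      by_cases h1 : i ∈ A
      · simp [res, h1, h h1]
      · by_cases h2 : i ∈ B <;> simp [res, h1, h2]
    rw [Finset.sum_congr rfl fun s _ => e1 s, Finset.sum_comm]
    have e2 : ∀ t : Fin K → T, ∑ s : Fin K → T, dl θ (res B (res A t * s)) = S θ B := by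
      intro t
      exact Equiv.sum_comp (Equiv.mulLeft (res A t)) (fun s => dl θ (res B s))
    rw [Finset.sum_congr rfl fun t _ => e2 t, Finset.sum_const, Finset.card_univ, nsmul_eq_mul]
  rw [h3] at h2
  exact le_of_mul_le_mul_left h2 hN0

/-- one coordinate is fixed -/
theorem fix_one (i : Fin K) (ψ : (Fin K → T) → ℝ) (hψ : ∀ t x, ψ (t * Pi.mulSingle i x) = ψ t) :
    (Fintype.card T : ℝ) * ∑ t : Fin K → T, (if t i = 1 then ψ t else 0) = ∑ t : Fin K → T, ψ t := by
  have h1 : ∀ x : T, ∑ t : Fin K → T, (if t i = 1 then ψ t else 0) =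
      ∑ t : Fin K → T, (if t i * x = 1 then ψ t else 0) := by
    intro x
    rw [← Equiv.sum_comp (Equiv.mulRight (Pi.mulSingle i x : Fin K → T))
      (fun t => if t i = 1 then ψ t else 0)]
    refine Finset.sum_congr rfl fun t _ => ?_
    show (if (t * (Pi.mulSingle i x : Fin K → T)) i = 1 then ψ (t * Pi.mulSingle i x) else 0) = _
    rw [hψ, Pi.mul_apply, Pi.mulSingle_eq_same]
  have h2 : (Fintype.card T : ℝ) * ∑ t : Fin K → T, (if t i = 1 then ψ t else 0) =
      ∑ x : T, ∑ t : Fin K → T, (if t i * x = 1 then ψ t else 0) := by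
    rw [← Finset.sum_congr rfl fun x _ => h1 x, Finset.sum_const, Finset.card_univ, nsmul_eq_mul]
  rw [h2, Finset.sum_comm]
  refine Finset.sum_congr rfl fun t _ => ?_
  rw [Finset.sum_eq_single (t i)⁻¹]
  · rw [mul_inv_cancel, if_pos rfl]
  · intro x _ hx
    rw [if_neg]
    intro h
    exact hx (eq_inv_of_mul_eq_one_right h)
  · intro h; exact absurd (Finset.mem_univ _) h

/-- the sum over the `t` which are nontrivial on `B` -/
noncomputable def Gs (φ : (Fin K → T) → ℝ) (A B : Finset (Fin K)) : ℝ :=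
  ∑ t : Fin K → T, if ∀ i ∈ B, t i ≠ 1 then φ (res (A ∪ B) t) else 0

theorem Gs_step (φ : (Fin K → T) → ℝ) (A B : Finset (Fin K)) (i : Fin K) (hA : i ∉ A) (hB : i ∉ B) :
    Gs φ A (insert i B) = Gs φ (insert i A) B - (Fintype.card T : ℝ)⁻¹ * Gs φ A B := by
  classical
  have hm : (Fintype.card T : ℝ) ≠ 0 := by exact_mod_cast Fintype.card_pos.ne'
  have h1 := fix_one i (fun t => if ∀ j ∈ B, t j ≠ 1 then φ (res (A ∪ B) t) else 0) (by
    intro t x
    have e1 : (∀ j ∈ B, (t * (Pi.mulSingle i x : Fin K → T)) j ≠ 1) ↔ ∀ j ∈ B, t j ≠ 1 := by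
      refine forall₂_congr fun j hj => ?_
      have : j ≠ i := fun h => hB (h ▸ hj)
      rw [Pi.mul_apply, Pi.mulSingle_eq_of_ne this, mul_one]
    have e2 : res (A ∪ B) (t * Pi.mulSingle i x) = res (A ∪ B) t := by
      funext j
      by_cases hj : j ∈ A ∪ B
      · have : j ≠ i := by
          rintro rfl
          rcases Finset.mem_union.1 hj with h | h
          · exact hA h
          · exact hB h
        simp only [res, if_pos hj, Pi.mul_apply, Pi.mulSingle_eq_of_ne this, mul_one]
      · simp only [res, if_neg hj]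
    simp only [e1, e2])
  have h2 : Gs φ (insert i A) B = Gs φ A (insert i B) +
      ∑ t : Fin K → T, (if t i = 1 then (if ∀ j ∈ B, t j ≠ 1 then φ (res (A ∪ B) t) else 0) else 0) := by
    unfold Gs
    rw [← Finset.sum_add_distrib]
    refine Finset.sum_congr rfl fun t _ => ?_
    have hU : insert i A ∪ B = A ∪ insert i B := by
      rw [Finset.insert_union, Finset.union_insert]
    rw [hU]
    by_cases hi : t i = 1
    · rw [if_pos hi, if_neg (fun h : ∀ j ∈ insert i B, t j ≠ 1 => h i (Finset.mem_insert_self _ _) hi),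
        zero_add]
      have : res (A ∪ insert i B) t = res (A ∪ B) t := by
        funext j
        by_cases hj : j = i
        · subst hj
          simp [res, hi]
        · simp [res, hj]
      rw [this]
    · rw [if_neg hi, add_zero]
      have : (∀ j ∈ insert i B, t j ≠ 1) ↔ ∀ j ∈ B, t j ≠ 1 := by
        rw [Finset.forall_mem_insert]
        exact and_iff_right hi
      simp only [this]
  have h3 : ∑ t : Fin K → T, (if t i = 1 then
      (if ∀ j ∈ B, t j ≠ 1 then φ (res (A ∪ B) t) else 0) else 0) =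
      (Fintype.card T : ℝ)⁻¹ * Gs φ A B := by
    unfold Gs
    rw [← h1]
    field_simp
  rw [h2, h3]
  ring

theorem Gs_empty (φ : (Fin K → T) → ℝ) (A : Finset (Fin K)) :
    Gs φ A ∅ = ∑ t : Fin K → T, φ (res A t) := by
  unfold Gs
  refine Finset.sum_congr rfl fun t _ => ?_
  rw [if_pos (by simp), Finset.union_empty]

theorem Gs_const (b : ℝ) (B : Finset (Fin K)) : ∀ A : Finset (Fin K), Disjoint A B →
    Gs (fun _ : Fin K → T => b) A B =
      (Fintype.card (Fin K → T) : ℝ) * b * (1 - (Fintype.card T : ℝ)⁻¹) ^ B.card := by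
  classical
  induction B using Finset.induction_on with
  | empty =>
    intro A _
    rw [Gs_empty, Finset.sum_const, Finset.card_univ, nsmul_eq_mul, Finset.card_empty, pow_zero,
      mul_one]
  | insert i B hi ih =>
    intro A hAB
    rw [Finset.disjoint_insert_right] at hAB
    rw [Gs_step _ A B i hAB.1 hi, ih A hAB.2, ih (insert i A)
      (Finset.disjoint_insert_left.2 ⟨hi, hAB.2⟩), Finset.card_insert_of_notMem hi, pow_succ]
    ring

/-- the sums over single coordinates -/
theorem S_single (θ : (Fin K → T) → ℂ) (i0 i : Fin K)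
    (hsym : ∀ (i : Fin K) (x : T), dl θ (Pi.mulSingle i x) = dl θ (Pi.mulSingle i0 x)) :
    (Fintype.card T : ℝ) * S θ {i} =
      (Fintype.card (Fin K → T) : ℝ) * ∑ x : T, dl θ (Pi.mulSingle i0 x) := by
  classical
  have h0 : S θ {i} = ∑ t : Fin K → T, dl θ (Pi.mulSingle i0 (t i)) := by
    unfold S
    refine Finset.sum_congr rfl fun t _ => ?_
    rw [← hsym i]
    congr 1
    funext j
    by_cases hj : j = i
    · subst hj
      simp [res]
    · simp [res, hj]
  have h1 : ∀ x : T, ∑ t : Fin K → T, dl θ (Pi.mulSingle i0 (t i)) =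
      ∑ t : Fin K → T, dl θ (Pi.mulSingle i0 (t i * x)) := by
    intro x
    rw [← Equiv.sum_comp (Equiv.mulRight (Pi.mulSingle i x : Fin K → T))
      (fun t => dl θ (Pi.mulSingle i0 (t i)))]
    refine Finset.sum_congr rfl fun t _ => ?_
    show dl θ (Pi.mulSingle i0 ((t * (Pi.mulSingle i x : Fin K → T)) i)) = _
    rw [Pi.mul_apply, Pi.mulSingle_eq_same]
  have h2 : (Fintype.card T : ℝ) * S θ {i} =
      ∑ x : T, ∑ t : Fin K → T, dl θ (Pi.mulSingle i0 (t i * x)) := by
    rw [← Finset.sum_congr rfl fun x _ => h1 x, Finset.sum_const, Finset.card_univ, nsmul_eq_mul, h0]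
  rw [h2, Finset.sum_comm]
  have h3 : ∀ t : Fin K → T, ∑ x : T, dl θ (Pi.mulSingle i0 (t i * x)) =
      ∑ x : T, dl θ (Pi.mulSingle i0 x) := by
    intro t
    exact Equiv.sum_comp (Equiv.mulLeft (t i)) (fun x => dl θ (Pi.mulSingle i0 x))
  rw [Finset.sum_congr rfl fun t _ => h3 t, Finset.sum_const, Finset.card_univ, nsmul_eq_mul]

theorem claim1 (θ : (Fin K → T) → ℂ) (A0 : Finset (Fin K)) (c s1 : ℝ)
    (hlo : ∀ A, A.Nonempty → s1 ≤ S θ A) (hhi : ∀ A ⊆ A0, S θ A ≤ (1 + c) * s1)
    (hm : 1 ≤ (Fintype.card T : ℝ)) (B : Finset (Fin K)) : B ⊆ A0 →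
    ∀ A : Finset (Fin K), A.Nonempty → A ⊆ A0 → Disjoint A B →
    ((1 - (Fintype.card T : ℝ)⁻¹) ^ B.card - c * (1 + (Fintype.card T : ℝ)⁻¹) ^ B.card) * s1 ≤
      Gs (dl θ) A B ∧ Gs (dl θ) A B ≤
    ((1 - (Fintype.card T : ℝ)⁻¹) ^ B.card + c * (1 + (Fintype.card T : ℝ)⁻¹) ^ B.card) * s1 := by
  classical
  have hm0 : (0 : ℝ) ≤ (Fintype.card T : ℝ)⁻¹ := by positivity
  induction B using Finset.induction_on with
  | empty =>
    intro _ A hA hA0 _
    rw [Gs_empty, Finset.card_empty, pow_zero, pow_zero, mul_one]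
    have h1 := hlo A hA
    have h2 := hhi A hA0
    unfold S at h1 h2
    constructor
    · have h3 : s1 ≤ (1 + c) * s1 := h1.trans h2
      nlinarith
    · exact h2
  | insert i B hi ih =>
    intro hB A hA hA0 hAB
    rw [Finset.disjoint_insert_right] at hAB
    have hB' : B ⊆ A0 := (Finset.subset_insert _ _).trans hB
    have hi0 : i ∈ A0 := hB (Finset.mem_insert_self _ _)
    obtain ⟨a1, a2⟩ := ih hB' A hA hA0 hAB.2
    obtain ⟨b1, b2⟩ := ih hB' (insert i A) (Finset.insert_nonempty _ _)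
      (Finset.insert_subset hi0 hA0) (Finset.disjoint_insert_left.2 ⟨hi, hAB.2⟩)
    rw [Gs_step _ A B i hAB.1 hi, Finset.card_insert_of_notMem hi, pow_succ, pow_succ]
    have c1 := mul_le_mul_of_nonneg_left a1 hm0
    have c2 := mul_le_mul_of_nonneg_left a2 hm0
    constructor <;> nlinarith

theorem claim2 (θ : (Fin K → T) → ℂ) (A0 : Finset (Fin K)) (c s1 : ℝ) (hc : 0 ≤ c) (hs1 : 0 ≤ s1)
    (h0 : S θ (∅ : Finset (Fin K)) = 0)
    (hlo : ∀ A, A.Nonempty → s1 ≤ S θ A) (hhi : ∀ A ⊆ A0, S θ A ≤ (1 + c) * s1)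
    (hm : 1 ≤ (Fintype.card T : ℝ)) (B : Finset (Fin K)) : B ⊆ A0 →
    ((1 - (Fintype.card T : ℝ)⁻¹) ^ B.card - (-(Fintype.card T : ℝ)⁻¹) ^ B.card -
      c * (1 + (Fintype.card T : ℝ)⁻¹) ^ B.card) * s1 ≤ Gs (dl θ) ∅ B ∧
    Gs (dl θ) ∅ B ≤ ((1 - (Fintype.card T : ℝ)⁻¹) ^ B.card - (-(Fintype.card T : ℝ)⁻¹) ^ B.card +
      c * (1 + (Fintype.card T : ℝ)⁻¹) ^ B.card) * s1 := by
  classical
  have hm0 : (0 : ℝ) ≤ (Fintype.card T : ℝ)⁻¹ := by positivity
  induction B using Finset.induction_on with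
  | empty =>
    intro _
    rw [Gs_empty, Finset.card_empty, pow_zero, pow_zero, pow_zero, mul_one]
    unfold S at h0
    rw [h0]
    have : 0 ≤ c * s1 := mul_nonneg hc hs1
    constructor <;> nlinarith
  | insert i B hi ih =>
    intro hB
    have hB' : B ⊆ A0 := (Finset.subset_insert _ _).trans hB
    have hi0 : i ∈ A0 := hB (Finset.mem_insert_self _ _)
    obtain ⟨a1, a2⟩ := ih hB'
    obtain ⟨b1, b2⟩ := claim1 θ A0 c s1 hlo hhi hm B hB' {i} (Finset.singleton_nonempty _)
      (Finset.singleton_subset_iff.2 hi0) (Finset.disjoint_singleton_left.2 hi)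
    rw [Gs_step _ ∅ B i (Finset.notMem_empty _) hi, Finset.card_insert_of_notMem hi, pow_succ,
      pow_succ, pow_succ, insert_empty_eq]
    have c1 := mul_le_mul_of_nonneg_left a1 hm0
    have c2 := mul_le_mul_of_nonneg_left a2 hm0
    constructor <;> nlinarith

/-- **GAIN** -/
theorem gain' {p : ℕ} (hp : Odd p) (hpK : p ≤ K) {θ : (Fin K → T) → ℂ}
    (hθ : IsHeilbronn θ) {b : ℝ} (hb0 : 0 ≤ b)
    (hb : ∀ t : Fin K → T, p ≤ Nat.card {i // t i ≠ 1} → dl θ t ≤ b)
    (hb4 : ∀ t, dl θ t ≤ 4 * b) (i0 : Fin K)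
    (hsym : ∀ (i : Fin K) (x : T), dl θ (Pi.mulSingle i x) = dl θ (Pi.mulSingle i0 x))
    (hcount : 32 * (Nat.card T + 1) ^ p *
      Nat.card {t : Fin K → T // Nat.card {i // t i ≠ 1} < p} ≤ Nat.card T ^ K) :
    ∑ᶠ x : T, dl θ (Pi.mulSingle i0 x) ≤
      Nat.card T * ((1 - 1 / (4 * (Nat.card T + 1 : ℝ) ^ p)) * b) := by
  classical
  rw [finsum_eq_sum_of_fintype]
  simp only [Nat.card_eq_fintype_card (α := T)] at hcount ⊢
  set m : ℝ := (Fintype.card T : ℝ) with hm
  have hm1 : 1 ≤ m := by rw [hm]; exact_mod_cast Fintype.card_pos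
  set N : ℝ := (Fintype.card (Fin K → T) : ℝ) with hN
  have hN0 : 0 < N := by rw [hN]; exact_mod_cast Fintype.card_pos
  set Y : ℝ := (m + 1) ^ p with hY
  have hY1 : 1 ≤ Y := one_le_pow₀ (by linarith)
  obtain ⟨c, hc⟩ : ∃ c : ℝ, c = 1 / (2 * Y) := ⟨_, rfl⟩
  have hcY : c * Y = 1 / 2 := by rw [hc]; field_simp
  have hc0 : 0 < c := by rw [hc]; positivity
  have hc2 : c ≤ 1 / 2 := by nlinarith
  set s1 := S θ {i0} with hs1
  have hsi : ∀ i, S θ {i} = s1 := by
    intro i
    have h1 := S_single θ i0 i hsym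
    have h2 := S_single θ i0 i0 hsym
    rw [← h2] at h1
    exact mul_left_cancel₀ (by positivity : (Fintype.card T : ℝ) ≠ 0) h1
  have hs10 : 0 ≤ s1 := Finset.sum_nonneg fun t _ => dl_nonneg hθ _
  have hS0 : S θ (∅ : Finset (Fin K)) = 0 := by
    unfold S
    refine Finset.sum_eq_zero fun t _ => ?_
    have : res (∅ : Finset (Fin K)) t = 1 := by funext i; simp [res]
    rw [this, dl_one]
  have hlo : ∀ A : Finset (Fin K), A.Nonempty → s1 ≤ S θ A := by
    rintro A ⟨i, hi⟩
    rw [← hsi i]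
    exact S_mono hθ (Finset.singleton_subset_iff.2 hi)
  -- the whole sum
  have hU : S θ Finset.univ ≤ (1 + c / 4) * (N * b) := by
    have e1 : S θ Finset.univ ≤ ∑ t : Fin K → T,
        (b + (if Nat.card {i // t i ≠ 1} < p then 3 * b else 0)) := by
      unfold S
      refine Finset.sum_le_sum fun t _ => ?_
      have : res Finset.univ t = t := by funext i; simp [res]
      rw [this]
      split_ifs with h
      · linarith [hb4 t]
      · linarith [hb t (not_lt.1 h)]
    refine e1.trans ?_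
    rw [Finset.sum_add_distrib, Finset.sum_const, Finset.card_univ, nsmul_eq_mul, ← Finset.sum_filter,
      Finset.sum_const, nsmul_eq_mul]
    have e2 : (((Finset.univ : Finset (Fin K → T)).filter
        fun t => Nat.card {i // t i ≠ 1} < p).card : ℝ) * (32 * Y) ≤ N := by
      have h1 : Nat.card {t : Fin K → T // Nat.card {i // t i ≠ 1} < p} =
          ((Finset.univ : Finset (Fin K → T)).filter
            fun t => Nat.card {i // t i ≠ 1} < p).card := by
        rw [Nat.card_eq_fintype_card, Fintype.card_subtype]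
      rw [h1] at hcount
      have h2 : N = ((Fintype.card T ^ K : ℕ) : ℝ) := by
        rw [hN, Fintype.card_fun, Fintype.card_fin]
      rw [h2, hY, hm]
      have h3 : ((32 * (Fintype.card T + 1) ^ p * ((Finset.univ : Finset (Fin K → T)).filter
            fun t => Nat.card {i // t i ≠ 1} < p).card : ℕ) : ℝ) ≤
            ((Fintype.card T ^ K : ℕ) : ℝ) := by exact_mod_cast hcount
      push_cast at h3 ⊢
      linarith
    set bad : ℝ := (((Finset.univ : Finset (Fin K → T)).filter
        fun t => Nat.card {i // t i ≠ 1} < p).card : ℝ) with hbad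
    have e3 : bad * 3 ≤ c / 4 * N := by
      have e4 : 32 * (bad * Y) ≤ N := by linarith
      have e5 : c * (32 * (bad * Y)) ≤ c * N := mul_le_mul_of_nonneg_left e4 hc0.le
      have e6 : c * (32 * (bad * Y)) = 16 * bad := by
        calc c * (32 * (bad * Y)) = 32 * bad * (c * Y) := by ring
          _ = 16 * bad := by rw [hcY]; ring
      have e7 : 0 ≤ bad := Nat.cast_nonneg _
      linarith
    have e4 := mul_le_mul_of_nonneg_right e3 hb0
    have e5 : N * b + bad * (3 * b) = N * b + bad * 3 * b := by ring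
    rw [e5]
    nlinarith
  -- the set A0
  obtain ⟨A0, _, hA0⟩ := Finset.exists_subset_card_eq
    (show p ≤ (Finset.univ : Finset (Fin K)).card by rw [Finset.card_univ, Fintype.card_fin]; exact hpK)
  have hp1 : 1 ≤ p := hp.pos
  have main : s1 ≤ (1 - 1 / (4 * Y)) * (N * b) := by
    have hcc : 1 / (4 * Y) = c / 2 := by rw [hc]; field_simp; norm_num
    rw [hcc]
    have hNb : 0 ≤ N * b := mul_nonneg hN0.le hb0
    rcases le_or_gt (S θ A0) ((1 + c) * s1) with h | h
    · have hhi : ∀ A ⊆ A0, S θ A ≤ (1 + c) * s1 := fun A hA => (S_mono hθ hA).trans h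
      have h1 := (claim2 θ A0 c s1 hc0.le hs10 hS0 hlo hhi hm1 A0 (Finset.Subset.refl _)).1
      have h2 : Gs (dl θ) ∅ A0 ≤ Gs (fun _ : Fin K → T => b) ∅ A0 := by
        unfold Gs
        refine Finset.sum_le_sum fun t _ => ?_
        split_ifs with ht
        · apply hb
          rw [Nat.card_eq_fintype_card, Fintype.card_subtype, ← hA0]
          refine Finset.card_le_card fun i hi => ?_
          rw [Finset.mem_filter]
          refine ⟨Finset.mem_univ _, ?_⟩
          have : i ∈ (∅ : Finset (Fin K)) ∪ A0 := by simpa using hi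
          simp only [res, if_pos this]
          exact ht i hi
        · exact le_rfl
      rw [Gs_const b A0 ∅ (Finset.disjoint_empty_left _)] at h2
      rw [hA0] at h1 h2
      have h3 := h1.trans h2
      rw [← hm] at h3
      have hneg : (-m⁻¹) ^ p = -(m⁻¹) ^ p := hp.neg_pow _
      rw [hneg] at h3
      have hm0 : m ≠ 0 := by linarith
      have hmp : (0 : ℝ) < m ^ p := by positivity
      have e1 : (1 - m⁻¹) ^ p * m ^ p = (m - 1) ^ p := by
        rw [← mul_pow]; congr 1; field_simp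
      have e2 : (1 + m⁻¹) ^ p * m ^ p = Y := by
        rw [← mul_pow, hY]; congr 1; field_simp
      have e3 : (m⁻¹) ^ p * m ^ p = 1 := by
        rw [← mul_pow, inv_mul_cancel₀ hm0, one_pow]
      have h4 := mul_le_mul_of_nonneg_right h3 hmp.le
      have h5 : ((1 - m⁻¹) ^ p - -(m⁻¹) ^ p - c * (1 + m⁻¹) ^ p) * s1 * m ^ p =
          ((m - 1) ^ p + 1 - c * Y) * s1 := by
        calc _ = ((1 - m⁻¹) ^ p * m ^ p + (m⁻¹) ^ p * m ^ p - c * ((1 + m⁻¹) ^ p * m ^ p)) * s1 := by ring
          _ = _ := by rw [e1, e2, e3]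
      have h6 : N * b * (1 - m⁻¹) ^ p * m ^ p = N * b * (m - 1) ^ p := by
        calc _ = N * b * ((1 - m⁻¹) ^ p * m ^ p) := by ring
          _ = _ := by rw [e1]
      rw [h5, h6, hcY] at h4
      -- (z + 1/2) s1 ≤ N b z
      set z : ℝ := (m - 1) ^ p with hz
      have hz0 : 0 ≤ z := pow_nonneg (by linarith) _
      have hzY : z ≤ Y := by
        rw [hz, hY]
        exact pow_le_pow_left₀ (by linarith) (by linarith) _
      have h7 : N * b * z ≤ (z + 1 / 2) * ((1 - c / 2) * (N * b)) := by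
        have : z ≤ (z + 1 / 2) * (1 - c / 2) := by
          have : (z + 1 / 2) * (c / 2) ≤ 1 / 2 := by
            have q1 : z * c ≤ 1 / 2 := by
              calc z * c ≤ Y * c := mul_le_mul_of_nonneg_right hzY hc0.le
                _ = 1 / 2 := by rw [mul_comm]; exact hcY
            nlinarith
          nlinarith
        nlinarith
      have h8 : (z + 1 / 2) * s1 ≤ (z + 1 / 2) * ((1 - c / 2) * (N * b)) := by
        refine le_trans ?_ h7
        linarith
      exact le_of_mul_le_mul_left h8 (by linarith)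
    · have h1 : (1 + c) * s1 ≤ (1 + c / 4) * (N * b) :=
        h.le.trans ((S_mono hθ (Finset.subset_univ _)).trans hU)
      have h2 : (1 + c / 4) * (N * b) ≤ (1 + c) * ((1 - c / 2) * (N * b)) := by
        have : 1 + c / 4 ≤ (1 + c) * (1 - c / 2) := by nlinarith
        nlinarith
      exact le_of_mul_le_mul_left (h1.trans h2) (by linarith)
  have hfin := S_single θ i0 i0 hsym
  rw [← hm, ← hN, ← hs1] at hfin
  have h9 : N * ∑ x : T, dl θ (Pi.mulSingle i0 x) ≤ N * (m * ((1 - 1 / (4 * Y)) * b)) := by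
    rw [← hfin]
    have := mul_le_mul_of_nonneg_left main (by linarith : 0 ≤ m)
    nlinarith
  exact le_of_mul_le_mul_left h9 hN0

end Pool.Agent.H42.BH

namespace Pool.Agent.H42.BH

open Module Pool.Agent.H67.TV Pool.Agent.H302R2 Pool.Agent.Y788.SC Pool.Agent.H67.BD

theorem gain {T : Type} [Group T] [Finite T] {p K : ℕ} (hp : Odd p) (hpK : p ≤ K)
    {θ : (Fin K → T) → ℂ} (hθ : IsHeilbronn θ) {b : ℝ} (hb0 : 0 ≤ b)
    (hb : ∀ t : Fin K → T, p ≤ Nat.card {i // t i ≠ 1} → dl θ t ≤ b)
    (hb4 : ∀ t, dl θ t ≤ 4 * b) (i0 : Fin K)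
    (hsym : ∀ (i : Fin K) (x : T), dl θ (Pi.mulSingle i x) = dl θ (Pi.mulSingle i0 x))
    (hcount : 32 * (Nat.card T + 1) ^ p *
      Nat.card {t : Fin K → T // Nat.card {i // t i ≠ 1} < p} ≤ Nat.card T ^ K) :
    ∑ᶠ x : T, dl θ (Pi.mulSingle i0 x) ≤
      Nat.card T * ((1 - 1 / (4 * (Nat.card T + 1 : ℝ) ^ p)) * b) := by
  classical
  have := Fintype.ofFinite T
  exact gain' hp hpK hθ hb0 hb hb4 i0 hsym hcount

end Pool.Agent.H42.BH
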